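import Pool.Agent.Y668.BB.States

/-!
Bisimilarity over BPA with the empty process and the binary Kleene star: a sharp quantitative form of the
absence of a finite equational basis. The terms, their transitions, bisimilarity, valid equations, derivability
and bases are those of Pool.Agent.Helper501.Eps.Defs.
-/

namespace Pool.Agent.Results.MP_32323c_lc.StateHierarchy

open Relation Pool.Agent.Helper501.Eps Pool.Agent.Helper501.Eps.Term

/-- Number of symbols of a term. -/
def size {L : Type*} : Term L → ℕ
  | eps => 1
  | atom _ => 1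
  | plus s t => size s + size t + 1
  | seq s t => size s + size t + 1
  | kstar s t => size s + size t + 1

/-- Star height of a term. -/
def height {L : Type*} : Term L → ℕ
  | eps => 0
  | atom _ => 0
  | plus s t => max (height s) (height t)
  | seq s t => max (height s) (height t)
  | kstar s t => max (height s + 1) (height t)

/-- The terms in which no action except `a` occurs. -/
def Only {A : Type*} (a : A) (t : Term A) : Prop := ∃ t' : Term Unit, t = inst (fun _ => atom a) t'

/-- The proper derivatives of a term: the terms reached from it by at least one transition. For a term over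
`A ⊕ ℕ`, that is, for an open term, a variable `x` is treated as an action: it has the only transition, with
label `x`, to the empty process. -/
def derivatives {L : Type*} (t : Term L) : Set (Term L) := {t' | TransGen (fun s s' => ∃ b, Tr s b s') t t'}

/-- The set of ALL valid equations (variables and all actions allowed, no bound on the size) both sides of which
have at most `n` proper derivatives. -/
def Small (A : Type*) (n : ℕ) : Set (Term (A ⊕ ℕ) × Term (A ⊕ ℕ)) :=
  {e | Valid e.1 e.2 ∧ (derivatives e.1).encard ≤ n ∧ (derivatives e.2).encard ≤ n}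

theorem inst_KK {A : Type*} (a : A) (n : ℕ) : KK a n = inst (fun _ => atom a) (KK () n) := by
  induction n with
  | zero => rfl
  | succ n ih => simp only [KK, inst, ← ih]

theorem size_KK {A : Type*} (a : A) (n : ℕ) : size (KK a n) = 4 * n + 5 := by
  induction n with
  | zero => rfl
  | succ n ih => simp only [KK, size, ih]; ring

theorem height_KK {A : Type*} (a : A) (n : ℕ) : height (KK a n) = 0 := by
  induction n with
  | zero => rfl
  | succ n ih => simp only [KK, height, ih]; rfl

theorem emb_KK {A : Type*} (a : A) (n : ℕ) : emb (KK a n) = KK (Sum.inl a : A ⊕ ℕ) n := by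
  induction n with
  | zero => rfl
  | succ n ih =>
    have : emb (KK a n) = inst (fun a => atom (Sum.inl a)) (KK a n) := rfl
    rw [this] at ih
    simp only [KK, emb, inst, ih]

theorem emb_lhs {A : Type*} (a : A) (n : ℕ) : emb (lhs a n) = lhs (Sum.inl a : A ⊕ ℕ) n := by
  have : inst (fun a => atom (Sum.inl a)) (KK a n) = KK (Sum.inl a : A ⊕ ℕ) n := emb_KK a n
  simp only [lhs, emb, inst, this]

theorem emb_rhs {A : Type*} (a : A) : emb (rhs a) = rhs (Sum.inl a : A ⊕ ℕ) := rfl

/-- For every action `a` there are closed terms `p 0, p 1, ...` and `q` of star height one in which only the action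
`a` occurs, `p n` having `4 n + 13` symbols, such that every equation `p n = q` is valid modulo bisimilarity and,
for every `n ≥ 1`, is not derivable from the set of all valid equations both sides of which have at most `n` proper
derivatives, but is derivable from (and even belongs to) the set with `n + 4` in place of `n`. Hence every basis, also
an infinite one, contains equations with arbitrarily many proper derivatives; there is no finite basis. -/
theorem result (A : Type*) (a : A) :
    (∃ (p : ℕ → Term A) (q : Term A),
      (Only a q ∧ height q = 1 ∧ ∀ n, Only a (p n) ∧ height (p n) = 1 ∧ size (p n) = 4 * n + 13 ∧ Bisim (p n) q) ∧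
      (∀ n, 1 ≤ n → ¬ Der (Small A n) (emb (p n)) (emb q)) ∧
      ∀ n, (emb (p n), emb q) ∈ Small A (n + 4)) ∧
    (∀ E : Set (Term (A ⊕ ℕ) × Term (A ⊕ ℕ)), IsBasis E → ∀ n : ℕ,
      ∃ e ∈ E, (n : ℕ∞) < (derivatives e.1).encard ∨ (n : ℕ∞) < (derivatives e.2).encard) ∧
    ¬ FinitelyBased A := by
  have key : ∀ n, 1 ≤ n → ∀ E : Set (Term (A ⊕ ℕ) × Term (A ⊕ ℕ)), E ⊆ Small A n →
      ¬ Der E (emb (lhs a n)) (emb (rhs a)) :=
    fun n hn E hE => Pool.Agent.Y668.BB.not_der a hn (fun e he => hE he)
  have hb : ∀ E : Set (Term (A ⊕ ℕ) × Term (A ⊕ ℕ)), IsBasis E → ∀ n : ℕ, ∃ e ∈ E,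
      (n : ℕ∞) < (derivatives e.1).encard ∨ (n : ℕ∞) < (derivatives e.2).encard := by
    intro E hE n
    by_contra hcon
    push Not at hcon
    refine key (n + 1) (by omega) E (fun e he => ?_) (hE.2 _ _ (lhs_bisim a (n + 1)))
    have h1 : (n : ℕ∞) ≤ ((n + 1 : ℕ) : ℕ∞) := by exact_mod_cast Nat.le_succ n
    exact ⟨hE.1 e he, (hcon e he).1.trans h1, (hcon e he).2.trans h1⟩
  refine ⟨⟨lhs a, rhs a, ⟨⟨rhs (), rfl⟩, rfl, fun n => ⟨⟨lhs () n, ?_⟩, ?_, ?_, lhs_bisim a n⟩⟩,
    fun n hn => key n hn _ subset_rfl, fun n => ⟨?_, ?_, ?_⟩⟩, hb, ?_⟩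
  · simp only [lhs, inst, ← inst_KK]
  · simp only [lhs, height, height_KK]; rfl
  · simp only [lhs, size, size_KK]; ring
  · intro ρ
    rw [inst_emb, inst_emb]
    exact lhs_bisim a n
  · show (derivatives (emb (lhs a n))).encard ≤ _
    rw [emb_lhs]
    exact Pool.Agent.Y668.BB.states_lhs _ n
  · show (derivatives (emb (rhs a))).encard ≤ _
    rw [emb_rhs]
    refine (Pool.Agent.Y668.BB.states_rhs _).trans ?_
    exact_mod_cast (by omega : 2 ≤ n + 4)
  · rintro ⟨E, hfin, hE⟩
    haveI : Nonempty A := ⟨a⟩
    exact Pool.Agent.Helper501.Eps.main E hE hfin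

end Pool.Agent.Results.MP_32323c_lc.StateHierarchy
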